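import Pool.Agent.H33.MN.Iface

/-!
# MP_5ee2d0_ag, Theorems M and N: special fibres with two components

The special fibre is `X_b = V_0 ∪ V_1`, two normal threefolds meeting along a normal surface whose
minimal resolution `D` is a K3 surface, and which is not a quotient of an abelian surface. A class
`x` which is nef on some model and with `c_2.x = 0` on the general fibre is semiample on `X_b`, and all
strata of `X_b` are mapped onto the image.
-/

namespace Pool.Agent.H34.MN

open Pool.Agent.H33.MN

/-- Nef classes and automorphisms of a K3 surface `D`: `N` is its Picard group tensored with `ℚ`. A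
multiple of a nef class `n` defines a morphism from `D` onto a normal projective variety `Y`, and is the
pull back of an ample invertible sheaf `O(1)` of `Y`. -/
structure K3 (N : Type) [AddCommGroup N] where
  /-- the self-intersection number -/
  sq : N → ℚ
  Nef : N → Prop
  nonneg : ∀ n, Nef n → 0 ≤ sq n
  /-- the closed points of `Y` -/
  Base : N → Type
  /-- the automorphisms of `(Y, O(1))` which are induced by automorphisms of `D` -/
  Lin : N → Type
  [grpLin : ∀ n, Group (Lin n)]
  /-- the action on `Y` -/
  act : ∀ n, Lin n → Base n → Base n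
  act_one : ∀ n p, act n 1 p = p
  act_mul : ∀ n u v p, act n (u * v) p = act n u (act n v p)
  /-- an automorphism of `(Y, O(1))` over the identity of `Y` is the multiplication by a scalar -/
  central : ∀ n u, (∀ p, act n u p = p) → ∀ v, u * v = v * u
  /-- the automorphisms of a K3 surface which fix a nef and big class are a finite group -/
  finite : ∀ n, Nef n → 0 < sq n → ∃ S : Finset (Lin n), ∀ u, ∃ v ∈ S, act n u = act n v
  /-- the critical values of the elliptic fibration given by a nef class of square zero -/
  crit : ∀ n, Finset (Base n)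
  crit_act : ∀ n u, ∀ p ∈ crit n, act n u p ∈ crit n
  /-- an elliptic fibration of a K3 surface over the projective line has at least three singular
  fibres -/
  three : ∀ n, Nef n → n ≠ 0 → sq n = 0 →
    ∃ p ∈ crit n, ∃ q ∈ crit n, ∃ r ∈ crit n, p ≠ q ∧ p ≠ r ∧ q ≠ r
  /-- an automorphism of the projective line with three fixed points is the identity -/
  moebius : ∀ n, Nef n → n ≠ 0 → sq n = 0 → ∀ u p q r, p ≠ q → p ≠ r → q ≠ r →
    act n u p = p → act n u q = q → act n u r = r → ∀ s, act n u s = s

attribute [instance] K3.grpLin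

namespace K3

variable {N : Type} [AddCommGroup N] (D : K3 N)

lemma act_inv (n : N) (u : D.Lin n) (p : D.Base n) : D.act n u⁻¹ (D.act n u p) = p := by
  rw [← D.act_mul, inv_mul_cancel, D.act_one]

/-- the automorphisms which fix the nef class `n ≠ 0` act on the image through a finite group -/
theorem exists_finite (n : N) (hn : D.Nef n) (h0 : n ≠ 0) :
    (Set.range (D.act n)).Finite := by
  classical
  rcases (D.nonneg n hn).lt_or_eq with h | h
  · obtain ⟨S, hS⟩ := D.finite n hn h
    refine (S.finite_toSet.image (D.act n)).subset ?_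
    rintro _ ⟨u, rfl⟩
    obtain ⟨v, hv, huv⟩ := hS u
    exact ⟨v, hv, huv.symm⟩
  · -- restriction to the critical values
    let φ : (Set.range (D.act n)) → (D.crit n → D.crit n) := fun f p => ⟨f.1 p.1, by
      obtain ⟨u, hu⟩ := f.2
      rw [← hu]
      exact D.crit_act n u p.1 p.2⟩
    have hφ : Function.Injective φ := by
      rintro ⟨f, u, rfl⟩ ⟨f', v, rfl⟩ h1
      have h2 : ∀ p ∈ D.crit n, D.act n (v⁻¹ * u) p = p := by
        intro p hp
        have h3 : D.act n u p = D.act n v p := congrArg Subtype.val (congrFun h1 ⟨p, hp⟩)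
        rw [D.act_mul, h3, D.act_inv]
      obtain ⟨p, hp, q, hq, r, hr, hpq, hpr, hqr⟩ := D.three n hn h0 h.symm
      have h3 := D.moebius n hn h0 h.symm (v⁻¹ * u) p q r hpq hpr hqr (h2 p hp) (h2 q hq) (h2 r hr)
      refine Subtype.ext (funext fun s => ?_)
      have h4 := congrArg (D.act n v) (h3 s)
      rw [← D.act_mul, mul_inv_cancel_left] at h4
      exact h4
    have := Finite.of_injective φ hφ
    exact Set.toFinite _

/-- Two involutions of `(Y, O(1))` generate a finite group: a power of their product is a scalar, and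
inverted by the involutions. -/
theorem exists_pow (n : N) (hn : D.Nef n) (h0 : n ≠ 0) (l l' : D.Lin n) (hl : l * l = 1)
    (hl' : l' * l' = 1) : ∃ k : ℕ, 0 < k ∧ (l * l') ^ k = 1 := by
  have hfin := D.exists_finite n hn h0
  have hni : ¬ Function.Injective fun k : ℕ => D.act n ((l * l') ^ k) := by
    intro hinj
    refine Set.infinite_range_of_injective hinj (hfin.subset ?_)
    rintro _ ⟨k, rfl⟩
    exact ⟨_, rfl⟩
  rw [Function.not_injective_iff] at hni
  obtain ⟨i, j, hij, hne⟩ := hni
  -- an exponent with trivial action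
  have key : ∀ i j : ℕ, i < j → D.act n ((l * l') ^ i) = D.act n ((l * l') ^ j) →
      ∃ k : ℕ, 0 < k ∧ (l * l') ^ k = 1 := by
    intro i j hij h
    obtain ⟨k, rfl⟩ := Nat.exists_eq_add_of_lt hij
    have h1 : ∀ p, D.act n ((l * l') ^ (k + 1)) p = p := by
      intro p
      have h2 := congrFun h p
      have h3 : (l * l') ^ (i + k + 1) = (l * l') ^ i * (l * l') ^ (k + 1) := by
        rw [← pow_add, add_assoc]
      rw [h3, D.act_mul] at h2
      have h4 := congrArg (D.act n ((l * l') ^ i)⁻¹) h2
      rw [D.act_inv, D.act_inv] at h4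
      exact h4.symm
    have h2 := D.central n _ h1 l
    have e1 : l⁻¹ = l := inv_eq_of_mul_eq_one_left hl
    have e2 : l'⁻¹ = l' := inv_eq_of_mul_eq_one_left hl'
    have hconj : l * (l * l') * l⁻¹ = (l * l')⁻¹ := by
      rw [mul_inv_rev, e1, e2, ← mul_assoc, hl, one_mul]
    have h3 : l * (l * l') ^ (k + 1) * l⁻¹ = ((l * l') ^ (k + 1))⁻¹ := by
      rw [← conj_pow, hconj, inv_pow]
    have h4 : (l * l') ^ (k + 1) = ((l * l') ^ (k + 1))⁻¹ := by
      rw [← h3, ← h2, mul_assoc, mul_inv_cancel, mul_one]
    refine ⟨(k + 1) + (k + 1), by omega, ?_⟩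
    rw [pow_add]
    nth_rewrite 1 [h4]
    exact inv_mul_cancel _
  rcases Nat.lt_or_gt_of_ne hne with h | h
  · exact key i j h hij
  · exact key j i h hij.symm

end K3

/-- The germ of the family at a prime divisor `b` of the base with two components `V_i` of the special
fibre `X_b`, `i = false` or `true`. The models are `Q`-factorial with canonical singularities,
`(XX, X_b)` is log canonical, the `V_i` are klt and meet in a normal surface with Du Val singularities
whose minimal resolution `D` is a K3 surface (the same for all models) and whose orbifold Euler number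
is positive. `c` is the degree of the second Chern class of the general fibre, and `Dom mu x` says that
the `V_i` and their intersection are mapped onto the image of the contraction of `X_b` which is given by
the semiample class `x`. -/
structure TypeTwo {P : Type} [AddCommGroup P] (g : Germ P) (c : P → ℚ)
    (Dom : g.Mo → g.Lam → Prop) where
  N : Type
  [grpN : AddCommGroup N]
  D : K3 N
  /-- the class of the component `V_i` -/
  V : Bool → g.Lam
  /-- the degree of the second orbifold Chern class of the sheaf of logarithmic 1-forms of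
  `(V_i, V_0 ∩ V_1)` -/
  c2 : g.Mo → Bool → g.Lam → ℚ
  /-- the sum of the degrees on the curves of Du Val singularities of `V_i`, each multiplied by the
  difference of the Euler number of the Milnor fibre and the inverse of the order of the local
  fundamental group -/
  sing : g.Mo → Bool → g.Lam → ℚ
  /-- additivity of Chern classes in a degeneration. `K + V_0 ∩ V_1` is Cartier on `V_i` and `V_i` is
  `ℚ`-Cartier, so `V_i` is smooth, and `XX` is `uv = t^m`, at the general points of all curves of
  `V_0 ∩ V_1` -/
  c_eq : ∀ mu x, c (g.rho x) =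
    c2 mu false x + c2 mu true x + (sing mu false x + sing mu true x)
  c2_add : ∀ mu i (j : ℕ) x y, c2 mu i (j • x + y) = j * c2 mu i x + c2 mu i y
  /-- Miyaoka inequality for the log Calabi-Yau pair `(V_i, V_0 ∩ V_1)` (Kawamata, Megyesi) -/
  miyaoka : ∀ mu i x, g.Nef mu x → 0 ≤ c2 mu i x
  sing_nonneg : ∀ mu i x, g.Nef mu x → 0 ≤ sing mu i x
  /-- `V_i` restricted to `V_i` is a negative multiple of `V_0 ∩ V_1`, a surface of positive orbifold
  Euler number (adjunction for the logarithmic 1-forms) -/
  c2_neg : ∀ mu i, c2 mu i (V i) < 0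
  /-- the pull back of the restriction to the K3 surface -/
  res : g.Mo → g.Lam → N
  res_nef : ∀ mu x, g.Nef mu x → D.Nef (res mu x)
  /-- models on which `x` is nef are connected by flops of curves of degree zero -/
  res_indep : ∀ mu mu' x, g.Nef mu x → g.Nef mu' x → res mu x = res mu' x
  /-- the restriction to `V_i` is numerically trivial -/
  Zero : g.Mo → Bool → g.Lam → Prop
  zero_indep : ∀ mu mu' i x, g.Nef mu x → g.Nef mu' x → Zero mu i x → Zero mu' i x
  zero_res : ∀ mu i x, Zero mu i x → res mu x = 0
  /-- numerically trivial classes on `X_b` are torsion since `H^1(O) = 0` -/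
  zero_sa : ∀ mu x, g.Nef mu x → (∀ i, Zero mu i x) → g.SA mu x
  /-- the degree of `x` on curves is constant in the family -/
  zero_tors : ∀ mu x, g.Nef mu x → (∀ i, Zero mu i x) → ∃ k : ℕ, 0 < k ∧ k • g.rho x = 0
  /-- `V_i` has a Mori fibration over a curve (the anticanonical divisor is relatively ample, and
  proportional to `V_0 ∩ V_1`), and `x` is on `V_i` the pull back of a nef class -/
  DelPezzo : g.Mo → Bool → g.Lam → Prop
  /-- the same over a surface -/
  Conic : g.Mo → Bool → g.Lam → Prop
  /-- cone theorem, existence of flips (Birkar, Cascini, Hacon and McKernan) and termination for the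
  threefold `V_i`: if `j x + V_i` is not nef for all `j`, on all models on which `x` is nef, then after
  flops of curves of degree zero there is a Mori fibration over a point, a curve or a surface -/
  mmp : ∀ mu i x, g.Nef mu x → (∀ mu', g.Nef mu' x → ∀ j : ℕ, ¬ g.Nef mu' (j • x + V i)) →
    ∃ mu', g.Nef mu' x ∧ (Zero mu' i x ∨ DelPezzo mu' i x ∨ Conic mu' i x)
  /-- over a curve, `x` is a multiple `a F` of a general fibre; if `a ≠ 0` and no curve of singular
  points has positive degree, then `F` is a smooth del Pezzo surface, with positive Euler number `e`,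
  and meets `V_0 ∩ V_1` in a smooth elliptic curve -/
  delPezzo : ∀ mu i x, g.Nef mu x → DelPezzo mu i x → sing mu i x = 0 →
    ∃ a e : ℚ, 0 < e ∧ c2 mu i x = a * e ∧ (a = 0 → Zero mu i x)
  /-- `V_0 ∩ V_1` is mapped onto the surface -/
  conic_zero : ∀ mu i x, Conic mu i x → res mu x = 0 → Zero mu i x
  /-- `Cover mu i x n l`: `V_i` is a conic bundle over a surface `S`, `x` is on `V_i` the pull back of
  a class of `S`, `n` is its restriction to `D`, and the covering involution of `D → S` induces the
  automorphism `l` of the image of `D` and of its line bundle -/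
  Cover : g.Mo → Bool → g.Lam → (n : N) → D.Lin n → Prop
  /-- a multiple of `x` is on `V_i` the pull back of an invertible sheaf of `S` -/
  cover : ∀ mu i x n, Conic mu i x → res mu x = n → ∃ l, Cover mu i x n l ∧ l * l = 1
  /-- Kollár: gluing by a finite equivalence relation. The restrictions of `x` to `V_i` are semiample
  since nef classes of K3 surfaces are. If the two involutions generate a finite group `G` then
  the quotient `Y/G` is the image of `X_b`, and a power of `O(1)` descends to it. -/
  glue : ∀ mu x, g.Nef mu x → ∀ mu0 l0 mu1 l1, g.Nef mu0 x → g.Nef mu1 x →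
    Cover mu0 false x (res mu x) l0 → Cover mu1 true x (res mu x) l1 →
    (∃ k : ℕ, 0 < k ∧ (l0 * l1) ^ k = 1) → g.SA mu x
  /-- `V_0 ∩ V_1` is mapped onto the bases of the conic bundles -/
  onto : ∀ mu x, g.SA mu x → ∀ mu0 mu1, g.Nef mu0 x → g.Nef mu1 x →
    Conic mu0 false x → Conic mu1 true x → Dom mu x

attribute [instance] TypeTwo.grpN

namespace TypeTwo

variable {P : Type} [AddCommGroup P] {g : Germ P} {c : P → ℚ} {Dom : g.Mo → g.Lam → Prop}
  (T : TypeTwo g c Dom)

/-- all terms of `c_2.x = 0` vanish -/
lemma terms (mu : g.Mo) (x : g.Lam) (hx : g.Nef mu x) (hc : c (g.rho x) = 0) (i : Bool) :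
    T.c2 mu i x = 0 ∧ T.sing mu i x = 0 := by
  have h := T.c_eq mu x
  rw [hc] at h
  have h0 := T.miyaoka mu false x hx
  have h1 := T.miyaoka mu true x hx
  have h2 := T.sing_nonneg mu false x hx
  have h3 := T.sing_nonneg mu true x hx
  cases i
  · exact ⟨by linarith, by linarith⟩
  · exact ⟨by linarith, by linarith⟩

/-- `x` is trivial on `V_i`, or `V_i` is a conic bundle -/
lemma alternative (mu : g.Mo) (x : g.Lam) (hx : g.Nef mu x) (hc : c (g.rho x) = 0) (i : Bool) :
    T.Zero mu i x ∨ ∃ mu', g.Nef mu' x ∧ T.Conic mu' i x := by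
  obtain ⟨mu', hx', hF⟩ := T.mmp mu i x hx fun mu' hx' j hj => by
    have h1 := T.miyaoka mu' i _ hj
    have h2 := (T.terms mu' x hx' hc i).1
    have h3 := T.c2_neg mu' i
    rw [T.c2_add, h2, mul_zero, zero_add] at h1
    linarith
  rcases hF with hF | hF | hF
  · exact Or.inl (T.zero_indep mu' mu i x hx' hx hF)
  · obtain ⟨a, e, he, heq, h0⟩ := T.delPezzo mu' i x hx' hF (T.terms mu' x hx' hc i).2
    rw [(T.terms mu' x hx' hc i).1] at heq
    have ha0 : a = 0 := by
      rcases mul_eq_zero.1 heq.symm with h | h
      · exact h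
      · exact absurd h he.ne'
    exact Or.inl (T.zero_indep mu' mu i x hx' hx (h0 ha0))
  · exact Or.inr ⟨mu', hx', hF⟩

/-- if `x` is trivial on `D` then it is trivial on `X_b` -/
lemma zero_of_res (mu : g.Mo) (x : g.Lam) (hx : g.Nef mu x) (hc : c (g.rho x) = 0)
    (hn : T.res mu x = 0) (i : Bool) : T.Zero mu i x := by
  rcases T.alternative mu x hx hc i with h | ⟨mu', hx', h⟩
  · exact h
  · refine T.zero_indep mu' mu i x hx' hx (T.conic_zero mu' i x h ?_)
    rw [T.res_indep mu' mu x hx' hx, hn]

/-- otherwise both components are conic bundles -/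
lemma conics (mu : g.Mo) (x : g.Lam) (hx : g.Nef mu x) (hc : c (g.rho x) = 0)
    (hn : T.res mu x ≠ 0) (i : Bool) : ∃ mu', g.Nef mu' x ∧ T.Conic mu' i x := by
  rcases T.alternative mu x hx hc i with h | h
  · exact absurd (T.zero_res mu i x h) hn
  · exact h

include T in
/-- A class which is nef on the model `mu` and has `c_2.x = 0` on the general fibre is semiample on
`X_b`. -/
theorem semiample (mu : g.Mo) (x : g.Lam) (hx : g.Nef mu x) (hc : c (g.rho x) = 0) :
    g.SA mu x := by
  by_cases hn : T.res mu x = 0
  · exact T.zero_sa mu x hx (T.zero_of_res mu x hx hc hn)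
  · obtain ⟨mu0, h0, f0⟩ := T.conics mu x hx hc hn false
    obtain ⟨mu1, h1, f1⟩ := T.conics mu x hx hc hn true
    obtain ⟨l0, k0, e0⟩ := T.cover mu0 false x _ f0 (T.res_indep mu0 mu x h0 hx)
    obtain ⟨l1, k1, e1⟩ := T.cover mu1 true x _ f1 (T.res_indep mu1 mu x h1 hx)
    exact T.glue mu x hx mu0 l0 mu1 l1 h0 h1 k0 k1
      (T.D.exists_pow _ (T.res_nef mu x hx) hn l0 l1 e0 e1)

include T in
/-- If `x` is moreover not torsion on the general fibre then all strata of `X_b` are mapped onto the
image of `X_b`. -/
theorem dom (mu : g.Mo) (x : g.Lam) (hx : g.Nef mu x) (hc : c (g.rho x) = 0)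
    (ht : ∀ k : ℕ, 0 < k → k • g.rho x ≠ 0) : Dom mu x := by
  by_cases hn : T.res mu x = 0
  · obtain ⟨k, hk, h⟩ := T.zero_tors mu x hx (T.zero_of_res mu x hx hc hn)
    exact absurd h (ht k hk)
  · obtain ⟨mu0, h0, f0⟩ := T.conics mu x hx hc hn false
    obtain ⟨mu1, h1, f1⟩ := T.conics mu x hx hc hn true
    exact T.onto mu x (T.semiample mu x hx hc) mu0 mu1 h0 h1 f0 f1

end TypeTwo

end Pool.Agent.H34.MN
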